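import Pool.Agent.Helper2.UN.CDefs

/-!
Block CR3: the counts in a simply laced system in which the roots of value one are pairwise
adjacent.
-/

open Module

namespace UN

/-- A nonempty family of `k`-subsets of `P` closed under exchange contains all `k`-subsets. -/
theorem exchange_all {M : Type*} [DecidableEq M] {Y : Finset M} {P : Finset M}
    {S : M → Finset M} {k : ℕ} (hk : ∀ y ∈ Y, (S y).card = k)
    (hex : ∀ y ∈ Y, ∀ a ∈ S y, ∀ b ∈ P, b ∉ S y → ∃ z ∈ Y, S z = insert b ((S y).erase a))
    {T : Finset M} (hT : T ⊆ P) (hTk : T.card = k) (m : ℕ) :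
    ∀ y ∈ Y, (T \ S y).card = m → ∃ z ∈ Y, S z = T := by
  induction m with
  | zero =>
    intro y hy hm
    refine ⟨y, hy, ?_⟩
    have h1 : T ⊆ S y := Finset.sdiff_eq_empty_iff_subset.mp (Finset.card_eq_zero.mp hm)
    exact (Finset.eq_of_subset_of_card_le h1 (by rw [hk y hy, hTk])).symm
  | succ m ih =>
    intro y hy hm
    have hb : (T \ S y).Nonempty := Finset.card_pos.mp (by omega)
    have ha : (S y \ T).Nonempty := by
      rw [← Finset.card_pos]
      have h1 := Finset.card_sdiff_add_card_inter T (S y)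
      have h2 := Finset.card_sdiff_add_card_inter (S y) T
      rw [Finset.inter_comm] at h2
      have h3 := hk y hy
      omega
    obtain ⟨b, hb⟩ := hb
    obtain ⟨a, ha⟩ := ha
    rw [Finset.mem_sdiff] at ha hb
    obtain ⟨z, hz, hSz⟩ := hex y hy a ha.1 b (hT hb.1) hb.2
    refine ih z hz ?_
    have e : T \ S z = (T \ S y).erase b := by
      ext w
      rw [hSz]
      simp only [Finset.mem_sdiff, Finset.mem_insert, Finset.mem_erase]
      constructor
      · rintro ⟨h1, h2⟩
        push Not at h2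
        refine ⟨h2.1, h1, fun h3 => ?_⟩
        by_cases hwa : w = a
        · subst hwa; exact ha.2 h1
        · exact h2.2 hwa h3
      · rintro ⟨h1, h2, h3⟩
        refine ⟨h2, ?_⟩
        push Not
        exact ⟨h1, fun _ => h3⟩
    rw [e, Finset.card_erase_of_mem (Finset.mem_sdiff.mpr hb), hm]
    rfl

theorem exchange_image {M : Type*} [DecidableEq M] {Y : Finset M} {P : Finset M}
    {S : M → Finset M} {k : ℕ} (hne : Y.Nonempty) (hk : ∀ y ∈ Y, (S y).card = k)
    (hsub : ∀ y ∈ Y, S y ⊆ P)
    (hex : ∀ y ∈ Y, ∀ a ∈ S y, ∀ b ∈ P, b ∉ S y → ∃ z ∈ Y, S z = insert b ((S y).erase a)) :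
    Y.image S = P.powersetCard k := by
  ext T
  rw [Finset.mem_image, Finset.mem_powersetCard]
  constructor
  · rintro ⟨y, hy, rfl⟩
    exact ⟨hsub y hy, hk y hy⟩
  · rintro ⟨hT, hTk⟩
    obtain ⟨y, hy⟩ := hne
    exact exchange_all hk hex hT hTk _ y hy rfl

/-- The number of `k + 1`-subsets of `P` which contain a given element of `P`. -/
theorem card_powersetCard_mem {M : Type*} [DecidableEq M] {P : Finset M} {a : M} (ha : a ∈ P)
    (k : ℕ) : ((P.powersetCard (k + 1)).filter (fun T => a ∈ T)).card =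
      (P.card - 1).choose k := by
  rw [← Finset.card_erase_of_mem ha, ← Finset.card_powersetCard]
  refine (Finset.card_bij (fun T _ => insert a T) ?_ ?_ ?_).symm
  · intro T hT
    rw [Finset.mem_powersetCard] at hT
    rw [Finset.mem_filter, Finset.mem_powersetCard]
    have hn : a ∉ T := fun h => (Finset.notMem_erase a P) (hT.1 h)
    refine ⟨⟨?_, ?_⟩, Finset.mem_insert_self _ _⟩
    · intro w hw
      rcases Finset.mem_insert.mp hw with rfl | hw
      · exact ha
      · exact Finset.mem_of_mem_erase (hT.1 hw)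
    · rw [Finset.card_insert_of_notMem hn, hT.2]
  · intro T hT U hU hTU
    rw [Finset.mem_powersetCard] at hT hU
    have hn : a ∉ T := fun h => (Finset.notMem_erase a P) (hT.1 h)
    have hn' : a ∉ U := fun h => (Finset.notMem_erase a P) (hU.1 h)
    rw [← Finset.erase_insert hn, ← Finset.erase_insert hn', hTU]
  · intro T hT
    rw [Finset.mem_filter, Finset.mem_powersetCard] at hT
    refine ⟨T.erase a, ?_, Finset.insert_erase hT.2⟩
    rw [Finset.mem_powersetCard]
    refine ⟨Finset.erase_subset_erase _ hT.1.1, ?_⟩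
    rw [Finset.card_erase_of_mem hT.2, hT.1.2]
    rfl

variable {K : Type*} [Field K] [CharZero K] {M : Type*} [AddCommGroup M] [Module K M]
  {B : LinearMap.BilinForm K M} {s : M →ₗ[K] K} {c : K} {Φ X : Finset M}

namespace USL

omit [CharZero K] in
theorem sub_ne (h : USL B s c Φ X) {x : M} (hx : x ∈ X) {a : M} (ha : a ∈ Φ)
    (hxa : B x a = -1) : x + a ∈ X := by
  have h1 : B x (-a) = 1 := by rw [map_neg, hxa, neg_neg]
  have h2 := h.xsub x hx (-a) (h.neg a ha) h1
  rwa [sub_neg_eq_add] at h2

omit [CharZero K] in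
theorem refl_mem (h : USL B s c Φ X) {x : M} (hx : x ∈ X) {a : M} (ha : a ∈ Φ) :
    x - (B x a) • a ∈ X := by
  rcases h.small x hx a ha with h1 | h1 | h1
  · rw [h1, neg_one_smul, sub_neg_eq_add]; exact h.sub_ne hx ha h1
  · rw [h1, zero_smul, sub_zero]; exact hx
  · rw [h1, one_smul]; exact h.xsub x hx a ha h1

omit [CharZero K] in
theorem value (h : USL B s c Φ X) {a : M} (ha : a ∈ Φ) : s a = 1 ∨ s a = 0 ∨ s a = -1 := by
  obtain ⟨x, hx, hxa⟩ := h.faith a ha
  have h1 := h.sx x hx
  have h2 := h.sx _ (h.xsub x hx a ha hxa)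
  rw [map_sub] at h2
  rcases h1 with h1 | h1 <;> rcases h2 with h2 | h2 <;> rw [h1] at h2
  · right; left; linear_combination -h2
  · left; linear_combination -h2
  · right; right; linear_combination -h2
  · right; left; linear_combination -h2

theorem plus_val (h : USL B s c Φ X) {x : M} (hx : x ∈ X) (hsx : s x = c) {a : M} (ha : a ∈ Φ)
    (hsa : s a = 1) : B x a = 0 ∨ B x a = 1 := by
  rcases h.small x hx a ha with h1 | h1 | h1
  · exfalso
    have h2 := h.sx _ (h.sub_ne hx ha h1)
    rw [map_add, hsx, hsa] at h2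
    rcases h2 with h2 | h2
    · have : (1 : K) = 0 := by linear_combination h2
      exact one_ne_zero this
    · have : (2 : K) = 0 := by linear_combination h2
      exact two_ne_zero this
  · exact Or.inl h1
  · exact Or.inr h1

theorem minus_val (h : USL B s c Φ X) {x : M} (hx : x ∈ X) (hsx : s x = c - 1) {a : M}
    (ha : a ∈ Φ) (hsa : s a = 1) : B x a = 0 ∨ B x a = -1 := by
  rcases h.small x hx a ha with h1 | h1 | h1
  · exact Or.inr h1
  · exact Or.inl h1
  · exfalso
    have h2 := h.sx _ (h.xsub x hx a ha h1)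
    rw [map_sub, hsx, hsa] at h2
    rcases h2 with h2 | h2
    · have : (2 : K) = 0 := by linear_combination -h2
      exact two_ne_zero this
    · have : (1 : K) = 0 := by linear_combination -h2
      exact one_ne_zero this

/-- Roots of value zero are differences of roots of value one. -/
theorem zero_form (h : USL B s c Φ X) {g : M} (hg : g ∈ Φ) (hsg : s g = 0) :
    ∃ a ∈ Φ, ∃ b ∈ Φ, s a = 1 ∧ s b = 1 ∧ a ≠ b ∧ g = a - b := by
  have hg0 : g ≠ 0 := by
    rintro rfl
    have := h.two 0 hg
    rw [map_zero] at this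
    exact two_ne_zero this.symm
  have h1 : ∃ b ∈ Φ, s b = 1 ∧ B g b ≠ 0 := by
    by_contra hcon
    push Not at hcon
    exact hg0 (h.hit g hcon)
  obtain ⟨b, hb, hsb, hgb⟩ := h1
  have hne : g ≠ b := by
    rintro rfl
    rw [hsg] at hsb
    exact zero_ne_one hsb
  have hne' : g ≠ -b := by
    rintro rfl
    rw [map_neg, hsb, neg_eq_zero] at hsg
    exact one_ne_zero hsg
  rcases h.pair g hg b hb hne hne' with h2 | h2 | h2
  · -- b + g
    have h3 : B b (-g) = 1 := by rw [map_neg, h.symm, h2, neg_neg]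
    have h4 := h.sub b hb (-g) (h.neg g hg) h3
    rw [sub_neg_eq_add] at h4
    refine ⟨b + g, h4, b, hb, ?_, hsb, ?_, by abel⟩
    · rw [map_add, hsb, hsg, add_zero]
    · intro h5
      apply hg0
      calc g = (b + g) - b := by abel
        _ = 0 := by rw [h5, sub_self]
  · exact absurd h2 hgb
  · have h3 : B b g = 1 := by rw [h.symm, h2]
    have h4 := h.sub b hb g hg h3
    refine ⟨b, hb, b - g, h4, hsb, ?_, ?_, by abel⟩
    · rw [map_sub, hsb, hsg, sub_zero]
    · intro h5
      apply hg0
      calc g = b - (b - g) := by abel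
        _ = 0 := by rw [← h5, sub_self]

theorem root_cases (h : USL B s c Φ X) {g : M} (hg : g ∈ Φ) :
    (s g = 1) ∨ (∃ a ∈ Φ, s a = 1 ∧ g = -a) ∨
      (∃ a ∈ Φ, ∃ b ∈ Φ, s a = 1 ∧ s b = 1 ∧ a ≠ b ∧ g = a - b) := by
  rcases h.value hg with h1 | h1 | h1
  · exact Or.inl h1
  · exact Or.inr (Or.inr (h.zero_form hg h1))
  · refine Or.inr (Or.inl ⟨-g, h.neg g hg, ?_, (neg_neg g).symm⟩)
    rw [map_neg, h1, neg_neg]

omit [CharZero K] in
/-- The coweight `s` is given by a vector. -/
theorem exists_vec (h : USL B s c Φ X) : ∃ u : M, ∀ m, B u m = s m := by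
  classical
  have hfin : Module.Finite K M := by
    let f : M →ₗ[K] ({a // a ∈ Φ} → K) := LinearMap.pi (fun a => B.flip a.1)
    have hf : Function.Injective f := by
      rw [← LinearMap.ker_eq_bot, LinearMap.ker_eq_bot']
      intro m hm
      apply h.hit m
      intro a ha _
      exact congrFun hm ⟨a, ha⟩
    exact Module.Finite.of_injective f hf
  have hinj : Function.Injective (B : M →ₗ[K] M →ₗ[K] K) := by
    rw [← LinearMap.ker_eq_bot, LinearMap.ker_eq_bot']
    intro m hm
    apply h.hit m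
    intro a _ _
    rw [hm]
    rfl
  have hfr : finrank K M = finrank K (M →ₗ[K] K) := (Subspace.dual_finrank_eq (K := K) (V := M)).symm
  have hsur := (LinearMap.injective_iff_surjective_of_finrank_eq_finrank hfr
    (f := (B : M →ₗ[K] M →ₗ[K] K))).mp hinj
  obtain ⟨u, hu⟩ := hsur s
  exact ⟨u, fun m => by rw [hu]⟩


omit [CharZero K] in
/-- Sum over the roots of value one. -/
theorem B_sum (h : USL B s c Φ X)
    (hadj : ∀ a ∈ Φ, ∀ b ∈ Φ, s a = 1 → s b = 1 → a ≠ b → B a b = 1) {P : Finset M}
    (hP : ∀ a, a ∈ P ↔ a ∈ Φ ∧ s a = 1) (m : M) :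
    ∑ a ∈ P, B m a = (P.card + 1) * s m := by
  classical
  obtain ⟨u, hu⟩ := h.exists_vec
  set v := ∑ a ∈ P, a with hv
  have hva : ∀ a ∈ P, B v a = P.card + 1 := by
    intro a ha
    rw [hv, map_sum, LinearMap.sum_apply]
    have h1 : ∀ b ∈ P, B b a = 1 + if b = a then 1 else 0 := by
      intro b hb
      by_cases hba : b = a
      · subst hba
        rw [if_pos rfl, h.two b ((hP b).mp hb).1]
        norm_num
      · rw [if_neg hba, add_zero]
        exact hadj b ((hP b).mp hb).1 a ((hP a).mp ha).1 ((hP b).mp hb).2 ((hP a).mp ha).2 hba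
    rw [Finset.sum_congr rfl h1, Finset.sum_add_distrib, Finset.sum_ite_eq' P a, if_pos ha]
    simp
  have hvu : v = ((P.card : K) + 1) • u := by
    rw [← sub_eq_zero]
    apply h.hit
    intro a ha hsa
    have haP := (hP a).mpr ⟨ha, hsa⟩
    rw [map_sub, LinearMap.sub_apply, hva a haP, map_smul, LinearMap.smul_apply, hu, hsa,
      smul_eq_mul, mul_one, sub_self]
  have h1 : ∑ a ∈ P, B m a = B v m := by
    rw [hv, map_sum, LinearMap.sum_apply]
    exact Finset.sum_congr rfl (fun a _ => h.symm m a)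
  rw [h1, hvu, map_smul, LinearMap.smul_apply, hu, smul_eq_mul]

open Classical in
theorem count (h : USL B s c Φ X)
    (hpq : (X.filter (fun x => s x = c)).card ≠ (X.filter (fun x => s x = c - 1)).card)
    (hadj : ∀ a ∈ Φ, ∀ b ∈ Φ, s a = 1 → s b = 1 → a ≠ b → B a b = 1)
    (hr : ∃ a ∈ Φ, s a = 1 ∧ (X.filter (fun x => B x a = 1)).card ≠ 1) :
    ∃ n k, 2 ≤ k ∧ k + 2 ≤ n ∧ n ≠ 2 * k ∧
      (X.filter (fun x => s x = c)).card = (n - 1).choose k ∧
      (X.filter (fun x => s x = c - 1)).card = (n - 1).choose (k - 1) ∧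
      (∀ a ∈ Φ, (X.filter (fun x => B x a = 1)).card = (n - 2).choose (k - 1)) ∧
      (∀ a ∈ Φ, ∀ b ∈ Φ, B a b = 0 → ∃ x ∈ X, B x a = 1 ∧ B x b = -1) := by
  set P := Φ.filter (fun a => s a = 1) with hPdef
  have hP : ∀ a, a ∈ P ↔ a ∈ Φ ∧ s a = 1 := fun a => Finset.mem_filter
  set X₁ := X.filter (fun x => s x = c) with hX₁
  set X₂ := X.filter (fun x => s x = c - 1) with hX₂
  set S : M → Finset M := fun x => P.filter (fun a => B x a = 1) with hS
  set S' : M → Finset M := fun x => P.filter (fun a => B x a = -1) with hS'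
  set d := P.card with hd
  have memX₁ : ∀ x, x ∈ X₁ ↔ x ∈ X ∧ s x = c := fun x => Finset.mem_filter
  have memX₂ : ∀ x, x ∈ X₂ ↔ x ∈ X ∧ s x = c - 1 := fun x => Finset.mem_filter
  have memS : ∀ x a, a ∈ S x ↔ a ∈ P ∧ B x a = 1 := fun x a => Finset.mem_filter
  have memS' : ∀ x a, a ∈ S' x ↔ a ∈ P ∧ B x a = -1 := fun x a => Finset.mem_filter
  have two0 : (2 : K) ≠ 0 := two_ne_zero
  have m1ne : (-1 : K) ≠ 1 := by
    intro h1
    apply two0
    linear_combination -h1
  -- values on weights
  have v1 : ∀ x ∈ X₁, ∀ a ∈ P, B x a = if a ∈ S x then 1 else 0 := by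
    intro x hx a ha
    rcases h.plus_val ((memX₁ x).mp hx).1 ((memX₁ x).mp hx).2 ((hP a).mp ha).1 ((hP a).mp ha).2
      with h1 | h1
    · rw [if_neg, h1]
      rw [memS, h1]
      exact fun h2 => zero_ne_one h2.2
    · rw [if_pos ((memS x a).mpr ⟨ha, h1⟩), h1]
  have v2 : ∀ x ∈ X₂, ∀ a ∈ P, B x a = if a ∈ S' x then -1 else 0 := by
    intro x hx a ha
    rcases h.minus_val ((memX₂ x).mp hx).1 ((memX₂ x).mp hx).2 ((hP a).mp ha).1 ((hP a).mp ha).2
      with h1 | h1
    · rw [if_neg, h1]
      rw [memS', h1]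
      intro h2
      exact one_ne_zero (neg_eq_zero.mp h2.2.symm)
    · rw [if_pos ((memS' x a).mpr ⟨ha, h1⟩), h1]
  -- cardinalities of the sets
  have c1 : ∀ x ∈ X₁, ((S x).card : K) = (d + 1) * c := by
    intro x hx
    rw [← ((memX₁ x).mp hx).2, ← h.B_sum hadj hP x, Finset.sum_congr rfl (v1 x hx),
      Finset.sum_ite_mem, Finset.sum_const, nsmul_eq_mul, mul_one,
      Finset.inter_eq_right.mpr (Finset.filter_subset _ _)]
  have c2 : ∀ x ∈ X₂, ((S' x).card : K) = (d + 1) * (1 - c) := by
    intro x hx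
    have h1 := h.B_sum hadj hP x
    rw [((memX₂ x).mp hx).2, Finset.sum_congr rfl (v2 x hx), Finset.sum_ite_mem,
      Finset.sum_const, nsmul_eq_mul,
      Finset.inter_eq_right.mpr (Finset.filter_subset _ _)] at h1
    linear_combination -h1
  -- a first weight
  obtain ⟨a₀, ha₀, hsa₀, hra₀⟩ := hr
  have ha₀P : a₀ ∈ P := (hP a₀).mpr ⟨ha₀, hsa₀⟩
  obtain ⟨x₀, hx₀, hxa₀⟩ := h.faith a₀ ha₀
  have hx₀1 : x₀ ∈ X₁ := by
    rw [memX₁]
    refine ⟨hx₀, ?_⟩
    rcases h.sx x₀ hx₀ with h1 | h1
    · exact h1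
    · exfalso
      rcases h.minus_val hx₀ h1 ha₀ hsa₀ with h2 | h2 <;> rw [hxa₀] at h2
      · exact one_ne_zero h2
      · exact m1ne h2.symm
  have hx₀2 : x₀ - a₀ ∈ X₂ := by
    rw [memX₂]
    refine ⟨h.xsub x₀ hx₀ a₀ ha₀ hxa₀, ?_⟩
    rw [map_sub, ((memX₁ x₀).mp hx₀1).2, hsa₀]
  set k := (S x₀).card with hk
  have hkc : (k : K) = (d + 1) * c := c1 x₀ hx₀1
  have hk1 : 1 ≤ k := Finset.card_pos.mpr ⟨a₀, (memS x₀ a₀).mpr ⟨ha₀P, hxa₀⟩⟩
  have hkd : k ≤ d := Finset.card_le_card (Finset.filter_subset _ _)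
  have ck1 : ∀ x ∈ X₁, (S x).card = k := by
    intro x hx
    have h1 := c1 x hx
    rw [← hkc] at h1
    exact_mod_cast h1
  have ck2 : ∀ x ∈ X₂, (S' x).card = d + 1 - k := by
    intro x hx
    have h1 := c2 x hx
    have h2 : ((S' x).card : K) + k = ((d + 1 : ℕ) : K) := by
      rw [h1, hkc]; push_cast; ring
    have h3 : (S' x).card + k = d + 1 := by exact_mod_cast h2
    omega
  -- values of differences of roots of value one
  have sub1 : ∀ x ∈ X₁, S x ⊆ P := fun x _ => Finset.filter_subset _ _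
  have sub2 : ∀ x ∈ X₂, S' x ⊆ P := fun x _ => Finset.filter_subset _ _
  have hBP : ∀ a ∈ P, ∀ b ∈ P, B a b = 1 + if a = b then 1 else 0 := by
    intro a ha b hb
    by_cases hab : a = b
    · subst hab
      rw [if_pos rfl, h.two a ((hP a).mp ha).1]
      norm_num
    · rw [if_neg hab, add_zero]
      exact hadj a ((hP a).mp ha).1 b ((hP b).mp hb).1 ((hP a).mp ha).2 ((hP b).mp hb).2 hab
  have hdiff : ∀ a ∈ P, ∀ b ∈ P, a ≠ b → a - b ∈ Φ := by
    intro a ha b hb hab
    apply h.sub a ((hP a).mp ha).1 b ((hP b).mp hb).1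
    rw [hBP a ha b hb, if_neg hab, add_zero]
  -- exchange
  have ex1 : ∀ y ∈ X₁, ∀ a ∈ S y, ∀ b ∈ P, b ∉ S y →
      ∃ z ∈ X₁, S z = insert b ((S y).erase a) := by
    intro y hy a ha b hb hbS
    have haP := ((memS y a).mp ha).1
    have hab : a ≠ b := by rintro rfl; exact hbS ha
    have hya := ((memS y a).mp ha).2
    have hyb : B y b = 0 := by rw [v1 y hy b hb, if_neg hbS]
    have hz : y - (a - b) ∈ X := by
      apply h.xsub y ((memX₁ y).mp hy).1 _ (hdiff a haP b hb hab)
      rw [map_sub, hya, hyb, sub_zero]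
    refine ⟨y - (a - b), ?_, ?_⟩
    · rw [memX₁]
      refine ⟨hz, ?_⟩
      rw [map_sub, map_sub, ((hP a).mp haP).2, ((hP b).mp hb).2, sub_self, sub_zero,
        ((memX₁ y).mp hy).2]
    · ext w
      rw [memS, Finset.mem_insert, Finset.mem_erase]
      have e : ∀ w ∈ P, B (y - (a - b)) w =
          B y w - ((if a = w then 1 else 0) - (if b = w then 1 else 0)) := by
        intro w hw
        rw [map_sub, map_sub, LinearMap.sub_apply, LinearMap.sub_apply, hBP a haP w hw,
          hBP b hb w hw]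
        ring
      constructor
      · rintro ⟨hw, h1⟩
        rw [e w hw] at h1
        by_cases hwb : w = b
        · exact Or.inl hwb
        · right
          rw [if_neg (Ne.symm hwb), sub_zero] at h1
          by_cases hwa : a = w
          · exfalso
            subst hwa
            rw [if_pos rfl, hya, sub_self] at h1
            exact zero_ne_one h1
          · rw [if_neg hwa, sub_zero] at h1
            exact ⟨Ne.symm hwa, (memS y w).mpr ⟨hw, h1⟩⟩
      · rintro (rfl | ⟨hwa, hwS⟩)
        · refine ⟨hb, ?_⟩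
          rw [e w hb, if_neg hab, if_pos rfl, hyb]
          ring
        · obtain ⟨hwP, hyw⟩ := (memS y w).mp hwS
          refine ⟨hwP, ?_⟩
          have hwb : b ≠ w := by rintro rfl; exact hbS hwS
          rw [e w hwP, if_neg (Ne.symm hwa), if_neg hwb, hyw]
          ring
  have ex2 : ∀ y ∈ X₂, ∀ a ∈ S' y, ∀ b ∈ P, b ∉ S' y →
      ∃ z ∈ X₂, S' z = insert b ((S' y).erase a) := by
    intro y hy a ha b hb hbS
    have haP := ((memS' y a).mp ha).1
    have hab : a ≠ b := by rintro rfl; exact hbS ha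
    have hya := ((memS' y a).mp ha).2
    have hyb : B y b = 0 := by rw [v2 y hy b hb, if_neg hbS]
    have hz : y - (b - a) ∈ X := by
      apply h.xsub y ((memX₂ y).mp hy).1 _ (hdiff b hb a haP (Ne.symm hab))
      rw [map_sub, hya, hyb]
      ring
    refine ⟨y - (b - a), ?_, ?_⟩
    · rw [memX₂]
      refine ⟨hz, ?_⟩
      rw [map_sub, map_sub, ((hP a).mp haP).2, ((hP b).mp hb).2, sub_self, sub_zero,
        ((memX₂ y).mp hy).2]
    · ext w
      rw [memS', Finset.mem_insert, Finset.mem_erase]
      have e : ∀ w ∈ P, B (y - (b - a)) w =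
          B y w + ((if a = w then 1 else 0) - (if b = w then 1 else 0)) := by
        intro w hw
        rw [map_sub, map_sub, LinearMap.sub_apply, LinearMap.sub_apply, hBP a haP w hw,
          hBP b hb w hw]
        ring
      constructor
      · rintro ⟨hw, h1⟩
        rw [e w hw] at h1
        by_cases hwb : w = b
        · exact Or.inl hwb
        · right
          rw [if_neg (Ne.symm hwb), sub_zero] at h1
          by_cases hwa : a = w
          · exfalso
            subst hwa
            rw [if_pos rfl, hya] at h1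
            have : (1 : K) = 0 := by linear_combination h1
            exact one_ne_zero this
          · rw [if_neg hwa, add_zero] at h1
            exact ⟨Ne.symm hwa, (memS' y w).mpr ⟨hw, h1⟩⟩
      · rintro (rfl | ⟨hwa, hwS⟩)
        · refine ⟨hb, ?_⟩
          rw [e w hb, if_neg hab, if_pos rfl, hyb]
          ring
        · obtain ⟨hwP, hyw⟩ := (memS' y w).mp hwS
          refine ⟨hwP, ?_⟩
          have hwb : b ≠ w := by rintro rfl; exact hbS hwS
          rw [e w hwP, if_neg (Ne.symm hwa), if_neg hwb, hyw]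
          ring
  -- images
  have im1 : X₁.image S = P.powersetCard k := exchange_image ⟨x₀, hx₀1⟩ ck1 sub1 ex1
  have im2 : X₂.image S' = P.powersetCard (d + 1 - k) :=
    exchange_image ⟨x₀ - a₀, hx₀2⟩ ck2 sub2 ex2
  -- injectivity
  have sep : ∀ x ∈ X, ∀ y ∈ X, (∀ a ∈ P, B x a = B y a) → x = y := by
    intro x hx y hy hxy
    by_contra hne
    obtain ⟨g, hg, hxg, hyg⟩ := h.sep x hx y hy hne
    have key : B x g = B y g := by
      rcases h.root_cases hg with h1 | ⟨a, ha, hsa, rfl⟩ | ⟨a, ha, b, hb, hsa, hsb, -, rfl⟩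
      · exact hxy g ((hP g).mpr ⟨hg, h1⟩)
      · rw [map_neg, map_neg, hxy a ((hP a).mpr ⟨ha, hsa⟩)]
      · rw [map_sub, map_sub, hxy a ((hP a).mpr ⟨ha, hsa⟩), hxy b ((hP b).mpr ⟨hb, hsb⟩)]
    rw [hxg, hyg] at key
    exact m1ne key.symm
  have inj1 : Set.InjOn S X₁ := by
    intro x hx y hy hxy
    refine sep x ((memX₁ x).mp hx).1 y ((memX₁ y).mp hy).1 (fun a ha => ?_)
    rw [v1 x hx a ha, v1 y hy a ha, hxy]
  have inj2 : Set.InjOn S' X₂ := by
    intro x hx y hy hxy
    refine sep x ((memX₂ x).mp hx).1 y ((memX₂ y).mp hy).1 (fun a ha => ?_)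
    rw [v2 x hx a ha, v2 y hy a ha, hxy]
  have card1 : X₁.card = d.choose k := by
    rw [← Finset.card_image_of_injOn inj1, im1, Finset.card_powersetCard]
  have card2 : X₂.card = d.choose (k - 1) := by
    rw [← Finset.card_image_of_injOn inj2, im2, Finset.card_powersetCard,
      ← Nat.choose_symm (show k - 1 ≤ d by omega)]
    congr 1
    omega
  -- the number of weights with value one at a root of value one
  have num1 : ∀ a ∈ P, (X.filter (fun x => B x a = 1)).card = (d - 1).choose (k - 1) := by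
    intro a ha
    have e1 : X.filter (fun x => B x a = 1) = X₁.filter (fun x => a ∈ S x) := by
      ext x
      rw [Finset.mem_filter, Finset.mem_filter, memX₁, memS]
      constructor
      · rintro ⟨hx, hxa⟩
        refine ⟨⟨hx, ?_⟩, ha, hxa⟩
        rcases h.sx x hx with h1 | h1
        · exact h1
        · exfalso
          rcases h.minus_val hx h1 ((hP a).mp ha).1 ((hP a).mp ha).2 with h2 | h2 <;>
            rw [hxa] at h2
          · exact one_ne_zero h2
          · exact m1ne h2.symm
      · rintro ⟨⟨hx, -⟩, -, hxa⟩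
        exact ⟨hx, hxa⟩
    have e2 : (X₁.filter (fun x => a ∈ S x)).image S =
        (P.powersetCard k).filter (fun T => a ∈ T) := by
      rw [← im1, Finset.filter_image]
    rw [e1, ← Finset.card_image_of_injOn
      (inj1.mono (Finset.coe_subset.mpr (Finset.filter_subset _ _))), e2]
    obtain ⟨j, hj⟩ : ∃ j, k = j + 1 := ⟨k - 1, by omega⟩
    rw [hj, card_powersetCard_mem ha j]
    rfl
  -- reflections
  have hrefl : ∀ a ∈ Φ, ∀ g g' : M, (∀ x, B (x - (B x a) • a) g' = B x g) →
      (∀ x, B (x - (B x a) • a) g = B x g') →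
      (X.filter (fun x => B x g = 1)).card = (X.filter (fun x => B x g' = 1)).card := by
    intro a ha g g' h1 h2
    refine Finset.card_bij' (fun x _ => x - (B x a) • a) (fun x _ => x - (B x a) • a)
      ?_ ?_ ?_ ?_
    · intro x hx
      rw [Finset.mem_filter] at hx ⊢
      exact ⟨h.refl_mem hx.1 ha, by rw [h1, hx.2]⟩
    · intro x hx
      rw [Finset.mem_filter] at hx ⊢
      exact ⟨h.refl_mem hx.1 ha, by rw [h2, hx.2]⟩
    · intro x _
      simp only [map_sub, map_smul, LinearMap.sub_apply, LinearMap.smul_apply, smul_eq_mul,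
        h.two a ha]
      rw [show B x a - B x a * 2 = -B x a by ring, neg_smul]
      abel
    · intro x _
      simp only [map_sub, map_smul, LinearMap.sub_apply, LinearMap.smul_apply, smul_eq_mul,
        h.two a ha]
      rw [show B x a - B x a * 2 = -B x a by ring, neg_smul]
      abel
  have num : ∀ a ∈ Φ, (X.filter (fun x => B x a = 1)).card = (d - 1).choose (k - 1) := by
    intro g hg
    rcases h.root_cases hg with h1 | ⟨a, ha, hsa, rfl⟩ | ⟨a, ha, b, hb, hsa, hsb, hab, rfl⟩
    · exact num1 g ((hP g).mpr ⟨hg, h1⟩)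
    · rw [← num1 a ((hP a).mpr ⟨ha, hsa⟩)]
      apply hrefl a ha
      · intro x
        simp only [map_sub, map_smul, LinearMap.sub_apply, LinearMap.smul_apply, smul_eq_mul,
          h.two a ha, map_neg]
        ring
      · intro x
        simp only [map_sub, map_smul, LinearMap.sub_apply, LinearMap.smul_apply, smul_eq_mul,
          h.two a ha, map_neg]
        ring
    · have haP := (hP a).mpr ⟨ha, hsa⟩
      have hbP := (hP b).mpr ⟨hb, hsb⟩
      have hba : B b a = 1 := by rw [hBP b hbP a haP, if_neg (Ne.symm hab), add_zero]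
      rw [← num1 a haP]
      apply hrefl b hb
      · intro x
        simp only [map_sub, map_smul, LinearMap.sub_apply, LinearMap.smul_apply, smul_eq_mul, hba]
        ring
      · intro x
        simp only [map_sub, map_smul, LinearMap.sub_apply, LinearMap.smul_apply, smul_eq_mul, hba,
          h.two b hb]
        ring
  -- the range of `k`
  have hk2 : 2 ≤ k := by
    by_contra hcon
    have : k - 1 = 0 := by omega
    rw [num1 a₀ ha₀P, this, Nat.choose_zero_right] at hra₀
    exact hra₀ rfl
  have hkd2 : k + 1 ≤ d := by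
    by_contra hcon
    have : d - 1 = k - 1 := by omega
    rw [num1 a₀ ha₀P, this, Nat.choose_self] at hra₀
    exact hra₀ rfl
  refine ⟨d + 1, k, hk2, by omega, ?_, ?_, ?_, ?_, ?_⟩
  · intro h2k
    apply hpq
    rw [card1, card2]
    have hd2 : d = 2 * k - 1 := by omega
    rw [← Nat.choose_symm (show k - 1 ≤ d by omega)]
    congr 1
    omega
  · rw [card1]; rfl
  · rw [card2]; rfl
  · intro a ha
    rw [num a ha]
    congr 1
  -- last clause
  have w1 : ∀ A E : Finset M, A ⊆ P → E ⊆ P → Disjoint A E → A.card ≤ k → k + E.card ≤ d →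
      ∃ x ∈ X, (∀ a ∈ A, B x a = 1) ∧ (∀ a ∈ E, B x a = 0) := by
    intro A E hA hE hAE hAk hEk
    obtain ⟨T, hAT, hTE, hT⟩ := Finset.exists_subsuperset_card_eq
      (show A ⊆ P \ E from fun w hw => Finset.mem_sdiff.mpr
        ⟨hA hw, Finset.disjoint_left.mp hAE hw⟩) hAk
      (by rw [Finset.card_sdiff_of_subset hE]; omega)
    have hTP : T ∈ X₁.image S := by
      rw [im1, Finset.mem_powersetCard]
      exact ⟨fun w hw => (Finset.mem_sdiff.mp (hTE hw)).1, hT⟩
    obtain ⟨x, hx, hxT⟩ := Finset.mem_image.mp hTP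
    refine ⟨x, ((memX₁ x).mp hx).1, fun a ha => ?_, fun a ha => ?_⟩
    · have := hAT ha
      rw [← hxT] at this
      exact ((memS x a).mp this).2
    · rw [v1 x hx a (hE ha), if_neg]
      rw [hxT]
      exact fun h1 => (Finset.mem_sdiff.mp (hTE h1)).2 ha
  have w2 : ∀ A E : Finset M, A ⊆ P → E ⊆ P → Disjoint A E → A.card + k ≤ d + 1 →
      E.card + 1 ≤ k →
      ∃ x ∈ X, (∀ a ∈ A, B x a = -1) ∧ (∀ a ∈ E, B x a = 0) := by
    intro A E hA hE hAE hAk hEk
    obtain ⟨T, hAT, hTE, hT⟩ := Finset.exists_subsuperset_card_eq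
      (show A ⊆ P \ E from fun w hw => Finset.mem_sdiff.mpr
        ⟨hA hw, Finset.disjoint_left.mp hAE hw⟩) (show A.card ≤ d + 1 - k by omega)
      (by rw [Finset.card_sdiff_of_subset hE]; omega)
    have hTP : T ∈ X₂.image S' := by
      rw [im2, Finset.mem_powersetCard]
      exact ⟨fun w hw => (Finset.mem_sdiff.mp (hTE hw)).1, hT⟩
    obtain ⟨x, hx, hxT⟩ := Finset.mem_image.mp hTP
    refine ⟨x, ((memX₂ x).mp hx).1, fun a ha => ?_, fun a ha => ?_⟩
    · have := hAT ha
      rw [← hxT] at this
      exact ((memS' x a).mp this).2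
    · rw [v2 x hx a (hE ha), if_neg]
      rw [hxT]
      exact fun h1 => (Finset.mem_sdiff.mp (hTE h1)).2 ha
  have hpair : ∀ a ∈ P, ∀ f ∈ P, ∀ g ∈ P, f ≠ g → B a (f - g) = 0 → a ≠ f ∧ a ≠ g := by
    intro a ha f hf g hg hfg h0
    rw [map_sub, hBP a ha f hf, hBP a ha g hg] at h0
    constructor
    · rintro rfl
      rw [if_pos rfl, if_neg hfg] at h0
      apply one_ne_zero (α := K)
      linear_combination h0
    · rintro rfl
      rw [if_pos rfl, if_neg (Ne.symm hfg)] at h0
      apply one_ne_zero (α := K)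
      linear_combination -h0
  have hsubP : ∀ a b : M, a ∈ P → b ∈ P → ({a, b} : Finset M) ⊆ P := by
    intro a b ha hb w hw
    rw [Finset.mem_insert, Finset.mem_singleton] at hw
    rcases hw with rfl | rfl
    · exact ha
    · exact hb
  have hsub1 : ∀ a : M, a ∈ P → ({a} : Finset M) ⊆ P := by
    intro a ha w hw
    rw [Finset.mem_singleton] at hw
    rw [hw]; exact ha
  have hdis : ∀ a b f : M, a ≠ f → b ≠ f → Disjoint ({a, b} : Finset M) {f} := by
    intro a b f haf hbf
    rw [Finset.disjoint_singleton_right, Finset.mem_insert, Finset.mem_singleton]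
    rintro (rfl | rfl)
    · exact haf rfl
    · exact hbf rfl
  -- two elements with value one, the third with value zero
  have q1 : ∀ a ∈ P, ∀ b ∈ P, ∀ f ∈ P, a ≠ f → b ≠ f →
      ∃ x ∈ X, B x a = 1 ∧ B x b = 1 ∧ B x f = 0 := by
    intro a ha b hb f hf haf hbf
    obtain ⟨x, hx, h1, h2⟩ := w1 {a, b} {f} (hsubP a b ha hb) (hsub1 f hf) (hdis a b f haf hbf)
      ((Finset.card_insert_le _ _).trans (by rw [Finset.card_singleton]; omega))
      (by rw [Finset.card_singleton]; omega)
    exact ⟨x, hx, h1 a (Finset.mem_insert_self _ _),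
      h1 b (Finset.mem_insert_of_mem (Finset.mem_singleton_self _)),
      h2 f (Finset.mem_singleton_self _)⟩
  have q2 : ∀ a ∈ P, ∀ b ∈ P, ∀ f ∈ P, a ≠ f → b ≠ f →
      ∃ x ∈ X, B x a = -1 ∧ B x b = -1 ∧ B x f = 0 := by
    intro a ha b hb f hf haf hbf
    have hc : ({a, b} : Finset M).card ≤ 2 :=
      (Finset.card_insert_le _ _).trans (by rw [Finset.card_singleton])
    obtain ⟨x, hx, h1, h2⟩ := w2 {a, b} {f} (hsubP a b ha hb) (hsub1 f hf) (hdis a b f haf hbf)
      (by omega) (by rw [Finset.card_singleton]; omega)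
    exact ⟨x, hx, h1 a (Finset.mem_insert_self _ _),
      h1 b (Finset.mem_insert_of_mem (Finset.mem_singleton_self _)),
      h2 f (Finset.mem_singleton_self _)⟩
  intro a ha b hb hab
  rcases h.root_cases ha with ha1 | ⟨e, he, hse, rfl⟩ | ⟨e, he, f, hf, hse, hsf, hef, rfl⟩
  · have haP := (hP a).mpr ⟨ha, ha1⟩
    rcases h.root_cases hb with hb1 | ⟨g, hg, hsg, rfl⟩ | ⟨g, hg, i, hi, hsg, hsi, hgi, rfl⟩
    · exfalso
      rw [hBP a haP b ((hP b).mpr ⟨hb, hb1⟩)] at hab
      split_ifs at hab
      · apply two0; linear_combination hab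
      · apply one_ne_zero (α := K); linear_combination hab
    · exfalso
      rw [map_neg, hBP a haP g ((hP g).mpr ⟨hg, hsg⟩)] at hab
      split_ifs at hab
      · apply two0; linear_combination -hab
      · apply one_ne_zero (α := K); linear_combination -hab
    · have hgP := (hP g).mpr ⟨hg, hsg⟩
      have hiP := (hP i).mpr ⟨hi, hsi⟩
      obtain ⟨h1, h2⟩ := hpair a haP g hgP i hiP hgi hab
      obtain ⟨x, hx, h3, h4, h5⟩ := q1 a haP i hiP g hgP h1 (Ne.symm hgi)
      refine ⟨x, hx, h3, ?_⟩
      rw [map_sub, h4, h5]; ring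
  · have heP := (hP e).mpr ⟨he, hse⟩
    rcases h.root_cases hb with hb1 | ⟨g, hg, hsg, rfl⟩ | ⟨g, hg, i, hi, hsg, hsi, hgi, rfl⟩
    · exfalso
      rw [map_neg, LinearMap.neg_apply, hBP e heP b ((hP b).mpr ⟨hb, hb1⟩)] at hab
      split_ifs at hab
      · apply two0; linear_combination -hab
      · apply one_ne_zero (α := K); linear_combination -hab
    · exfalso
      rw [map_neg, map_neg, LinearMap.neg_apply, hBP e heP g ((hP g).mpr ⟨hg, hsg⟩)] at hab
      split_ifs at hab
      · apply two0; linear_combination hab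
      · apply one_ne_zero (α := K); linear_combination hab
    · have hgP := (hP g).mpr ⟨hg, hsg⟩
      have hiP := (hP i).mpr ⟨hi, hsi⟩
      rw [map_neg, LinearMap.neg_apply, neg_eq_zero] at hab
      obtain ⟨h1, h2⟩ := hpair e heP g hgP i hiP hgi hab
      obtain ⟨x, hx, h3, h4, h5⟩ := q2 e heP g hgP i hiP h2 hgi
      refine ⟨x, hx, ?_, ?_⟩
      · rw [map_neg, h3, neg_neg]
      · rw [map_sub, h4, h5]; ring
  · have heP := (hP e).mpr ⟨he, hse⟩
    have hfP := (hP f).mpr ⟨hf, hsf⟩
    rcases h.root_cases hb with hb1 | ⟨g, hg, hsg, rfl⟩ | ⟨g, hg, i, hi, hsg, hsi, hgi, rfl⟩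
    · have hbP := (hP b).mpr ⟨hb, hb1⟩
      rw [h.symm] at hab
      obtain ⟨h1, h2⟩ := hpair b hbP e heP f hfP hef hab
      obtain ⟨x, hx, h3, h4, h5⟩ := q2 b hbP f hfP e heP h1 (Ne.symm hef)
      refine ⟨x, hx, ?_, h3⟩
      rw [map_sub, h4, h5]; ring
    · have hgP := (hP g).mpr ⟨hg, hsg⟩
      rw [map_neg, neg_eq_zero, h.symm] at hab
      obtain ⟨h1, h2⟩ := hpair g hgP e heP f hfP hef hab
      obtain ⟨x, hx, h3, h4, h5⟩ := q1 g hgP e heP f hfP h2 hef
      refine ⟨x, hx, ?_, ?_⟩
      · rw [map_sub, h4, h5]; ring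
      · rw [map_neg, h3]
    · have hgP := (hP g).mpr ⟨hg, hsg⟩
      have hiP := (hP i).mpr ⟨hi, hsi⟩
      -- the four roots are different
      have hne : e ≠ g ∧ e ≠ i ∧ f ≠ g ∧ f ≠ i := by
        rw [map_sub, map_sub, LinearMap.sub_apply, LinearMap.sub_apply,
          hBP e heP g hgP, hBP f hfP g hgP, hBP e heP i hiP, hBP f hfP i hiP] at hab
        by_cases e1 : e = g
        · subst e1
          exfalso
          rw [if_pos rfl, if_neg (Ne.symm hef), if_neg hgi] at hab
          split_ifs at hab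
          · apply two0; linear_combination hab
          · apply one_ne_zero (α := K); linear_combination hab
        · by_cases e2 : e = i
          · subst e2
            exfalso
            rw [if_neg e1, if_pos rfl, if_neg (Ne.symm hef)] at hab
            split_ifs at hab
            · apply two0; linear_combination -hab
            · apply one_ne_zero (α := K); linear_combination -hab
          · by_cases e3 : f = g
            · subst e3
              exfalso
              rw [if_neg e1, if_pos rfl, if_neg e2, if_neg hgi] at hab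
              apply one_ne_zero (α := K); linear_combination -hab
            · by_cases e4 : f = i
              · subst e4
                exfalso
                rw [if_neg e1, if_neg e3, if_neg e2, if_pos rfl] at hab
                apply one_ne_zero (α := K); linear_combination hab
              · exact ⟨e1, e2, e3, e4⟩
      obtain ⟨e1, e2, e3, e4⟩ := hne
      have hd1 : ∀ p q r t : M, p ≠ r → p ≠ t → q ≠ r → q ≠ t →
          Disjoint ({p, q} : Finset M) {r, t} := by
        intro p q r t h1 h2 h3 h4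
        rw [Finset.disjoint_left]
        intro w hw hw'
        rw [Finset.mem_insert, Finset.mem_singleton] at hw hw'
        rcases hw with rfl | rfl <;> rcases hw' with hw' | hw'
        · exact h1 hw'
        · exact h2 hw'
        · exact h3 hw'
        · exact h4 hw'
      have hc2 : ∀ p q : M, ({p, q} : Finset M).card ≤ 2 := fun p q =>
        (Finset.card_insert_le _ _).trans (by rw [Finset.card_singleton])
      by_cases hkd3 : k + 2 ≤ d
      · -- `e`, `i` in the set, `f`, `g` not in the set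
        have c3 := hc2 e i
        have c4 := hc2 f g
        obtain ⟨x, hx, h1, h2⟩ := w1 {e, i} {f, g} (hsubP e i heP hiP) (hsubP f g hfP hgP)
          (hd1 e i f g hef e1 (Ne.symm e4) (Ne.symm hgi)) (by omega) (by omega)
        refine ⟨x, hx, ?_, ?_⟩
        · rw [map_sub, h1 e (Finset.mem_insert_self _ _), h2 f (Finset.mem_insert_self _ _)]
          ring
        · rw [map_sub, h2 g (Finset.mem_insert_of_mem (Finset.mem_singleton_self _)),
            h1 i (Finset.mem_insert_of_mem (Finset.mem_singleton_self _))]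
          ring
      · have hd4 : 4 ≤ d := by
          have h1 : ({e, f, g, i} : Finset M) ⊆ P := by
            intro w hw
            simp only [Finset.mem_insert, Finset.mem_singleton] at hw
            rcases hw with rfl | rfl | rfl | rfl
            · exact heP
            · exact hfP
            · exact hgP
            · exact hiP
          have h2 : ({e, f, g, i} : Finset M).card = 4 := by
            rw [Finset.card_insert_of_notMem, Finset.card_insert_of_notMem,
              Finset.card_insert_of_notMem, Finset.card_singleton]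
            · simp [hgi]
            · simp [e3, e4]
            · simp [hef, e1, e2]
          rw [← h2]
          exact Finset.card_le_card h1
        have c3 := hc2 f g
        have c4 := hc2 e i
        obtain ⟨x, hx, h1, h2⟩ := w2 {f, g} {e, i} (hsubP f g hfP hgP) (hsubP e i heP hiP)
          (hd1 f g e i (Ne.symm hef) e4 (Ne.symm e1) hgi) (by omega) (by omega)
        refine ⟨x, hx, ?_, ?_⟩
        · rw [map_sub, h2 e (Finset.mem_insert_self _ _), h1 f (Finset.mem_insert_self _ _)]
          ring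
        · rw [map_sub, h1 g (Finset.mem_insert_of_mem (Finset.mem_singleton_self _)),
            h2 i (Finset.mem_insert_of_mem (Finset.mem_singleton_self _))]
          ring

end USL

end UN
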